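import Mathlib
import Pool.Agent.Run7.h285.G.Stm

/-!
# Project VAR (helper285): the variance of the number of prime values of polynomials in short intervals

`f_1, …, f_k` fixed polynomials of degrees `≥ 2` with positive leading coefficients (definitions of `Run7/h285/G/Stm.lean`), `L = log X`,
`z = ⌊L^E⌋`. For the pairs `(a, m)`, `a ∈ Bx k X`, `m₀ < m ≤ m₀ + M`, let `N(a, m, H) = ∑_{m < n ≤ m + H} ∏ uu(f_l(n) + a_l)` be the number of the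
simultaneous prime values. Two theorems (one hand-in, MP_2a816b_nt slot 3):
 * `S_V1`: for ALL `1 ≤ H ≤ log^D X` the variance of `N` around the sieve model `∑ ∏ vv z (f_l(n) + a_l)` is asymptotically `H / L^k`
   (mean over the pairs), with arbitrary weights `ω(n)`;
 * `S_V2`: for `H ≤ T L^k` the variance of `N` around `SS f a y · H / L^k` (`y` growing arbitrarily slowly) is asymptotically `H / L^k`
   (number variance of a Poisson process).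
-/

set_option autoImplicit false

namespace Run7.h285.V

open Finset Filter Topology Polynomial
open Pool.Agent.TH892.SW (ff wt)
open Pool.Agent.H373R2.T7 (lamz Vz)
open Run7.h285.S (Bx uu vv ll gg)
open Run7.h285.G (Gd cor pr MM nu SS Adm P W)

/-- mixed correlations -/
noncomputable def mc (g : ℤ[X]) (F G : ℤ → ℝ) (X n n' : ℕ) : ℝ :=
  ∑ c ∈ Icc (-(X : ℤ)) X, F (g.eval (n : ℤ) + c) * G (g.eval (n' : ℤ) + c)

/-- **GCM** (from `Pool.Agent.Run7.h794.MK.S_LAW'`, for `Gd g`): the same as `G.S_GCG` with an ARBITRARY bounded function `F` in the place of the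
first `gg` and both orders of `i`, `j`. In the proof of GCG the law `S_LAW'` is used with `G` = (a restriction of) `gg`, `|G| ≤ Kc`; it allows every
bounded `G`. (GCG follows from GCM with `F = gg / (6 L)`.) -/
def S_GCM (g : ℤ[X]) : Prop := ∀ U C D : ℕ, ∃ E1 : ℕ, ∀ E : ℕ, E1 ≤ E → ∃ B X₀ : ℕ, ∀ X : ℕ, X₀ ≤ X → ∀ m₀ M i j : ℕ, i ≠ j →
  (i : ℝ) ≤ Real.log X ^ D → (j : ℝ) ≤ Real.log X ^ D → (X : ℝ) ^ (1 / 3 : ℝ) * Real.log X ^ B ≤ (M : ℝ) ^ (g.natDegree - 1) →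
  ((m₀ : ℝ) + M) ^ g.natDegree ≤ X * Real.log X ^ C → ∀ F : ℤ → ℝ, (∀ y, |F y| ≤ 1) →
  ∑ m ∈ Ioc m₀ (m₀ + M), |mc g F (gg ⌊Real.log X ^ E⌋₊) X (m + i) (m + j)| ≤ X * M / Real.log X ^ U

/-- **GVO** (from GCM for all `f l`). The second moment is the diagonal up to `X^k M H² / L^U`. Proof. `pr uu - pr vv` is the sum over `j` of
`pr (mx j)` (`mx_prod` of `Run7/h277/S/Main.lean`, with polynomials). Expand the square: the pair `(j, j')` and `n ≠ n'` give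
`∏_l mc (f l) (mx j l) (mx j' l) X n n'`, where the factor `l = j` is `mc (f j) gg (one of gg, uu, vv) X n n'` and the other factors are trivially at
most `3 X (7 L)²`; for `n = m + i`, `n' = m + i'`, `i ≠ i'` sum over `m` first and use GCM (with `F` = the second function divided by `7 L`;
`mc g F G X n n' = mc g G F X n' n`); the weights `ω(n) ω(n')` are at most `1` in absolute value. Total `(k + 1)² H² (3 X (7 L)²)^(k-1) · 7 L · X M / L^(U')`. -/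
def S_GVO {k : ℕ} (f : Fin k → ℤ[X]) : Prop := ∀ U C D : ℕ, ∃ E1 : ℕ, ∀ E : ℕ, E1 ≤ E → ∃ B X₀ : ℕ, ∀ X : ℕ, X₀ ≤ X →
  ∀ m₀ M H : ℕ, 1 ≤ H → (H : ℝ) ≤ Real.log X ^ D →
  (∀ l, (X : ℝ) ^ (1 / 3 : ℝ) * Real.log X ^ B ≤ (M : ℝ) ^ ((f l).natDegree - 1)) →
  (∀ l, ((m₀ : ℝ) + M) ^ (f l).natDegree ≤ X * Real.log X ^ C) → ∀ ω : ℕ → ℝ, (∀ n, |ω n| ≤ 1) →
  |MM k ω (fun a n => pr f (fun _ => uu) a n - pr f (fun _ => vv ⌊Real.log X ^ E⌋₊) a n) X m₀ M H -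
    ∑ m ∈ Ioc m₀ (m₀ + M), ∑ n ∈ Ioc m (m + H), ω n ^ 2 *
      ∑ a ∈ Bx k X, (pr f (fun _ => uu) a n - pr f (fun _ => vv ⌊Real.log X ^ E⌋₊) a n) ^ 2| ≤
    (X : ℝ) ^ k * (M * (H : ℝ) ^ 2 / Real.log X ^ U)

/-- **GVD** (the diagonal; prime number theorem, `Pool.Agent.H442R2.EHI.pnt_err`). Proof. `∑_a (pr uu)² = ∏_l ∑_c uu(f_l(n) + c)`, and
`∑_{|c| ≤ X} uu(v + c)`, `|v| ≤ X L^C`, is the number of the primes between `|v| - X` and `|v| + X`, or `π(X + |v|) + π(X - |v|)` if `|v| ≤ X`: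
`2 X / L (1 + o(1))` by `pnt_err` with `U = C + 3` (`lis` = sum of `1 / log`; the numbers below `X / L²` are negligible, for the others
`1 / log = (1 + o(1)) / L`). `∑_a (pr vv)² = ∏_l ∑_c vv(f_l(n) + c)²`, and `∑_c vv² ≤ (Vz z)⁻¹ ∑_c ll · wt²`, the numbers of absolute value `≤ √X` contribute
`≤ 3 √X (Vz z)⁻² · 4`, the others have `wt ≤ 2 / L` and `∑_c ll ≤ 14 X` or so (`Pool.Agent.TH892.OW.lz_up`), so it is
`≤ 100 X (Vz z)⁻¹ / L² = o(X / L)` (`Vz_log`: `(Vz z)⁻¹ ≤ CV log² z`). The cross term by Cauchy-Schwarz. -/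
def S_GVD {k : ℕ} (f : Fin k → ℤ[X]) : Prop := ∀ (ε : ℝ) (C E : ℕ), 0 < ε → 1 ≤ E → ∃ X₀ : ℕ, ∀ X : ℕ, X₀ ≤ X → ∀ n : ℕ,
  (∀ l, (((f l).eval (n : ℤ)).natAbs : ℝ) ≤ X * Real.log X ^ C) →
  |∑ a ∈ Bx k X, (pr f (fun _ => uu) a n - pr f (fun _ => vv ⌊Real.log X ^ E⌋₊) a n) ^ 2 - (2 * X / Real.log X) ^ k| ≤
    ε * (2 * X / Real.log X) ^ k

/-- **VMS** (moments of the cut constants, Chinese remainder theorem; for `Gd (f l)`). Let `x_p(a) = (1 - nu f a p / p) / (1 - 1/p)^k`, a function of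
`a` modulo `p`. Its mean over `a mod p` is exactly `1`: the mean of `nu f a p` is `p (1 - (1 - 1/p)^k)`. The mean of `x_p²` is at most `1 + K / p²`
(`nu ≤ κ = ∑ deg f_l` for all `a` if `p > p₀(f)`; and `0 ≤ x_p ≤ 2^k` for all `p`). Let `Q` be the product of the primes `p ≤ y`,
`Q ≤ 4^y ≤ 4^√L` (`primorial_le_4_pow`). Every class modulo `Q` has at most `(2 X + 1) / Q + 1` and at least `(2 X + 1) / Q - 1` members in `[-X, X]`, so for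
a function `F(a)` periodic modulo `Q` with `|F| ≤ 2^(k π(y)) · …` the mean over `Bx k X` is the mean over `(ℤ/Q)^k` up to `(…) Q / X`; by the
Chinese remainder theorem the mean of `SS_y²` is `∏_{p ≤ y} E x_p² ≤ K`, and the mean of `SS_y SS_{y'}` is `∏_{p ≤ y'} E x_p²`, so the mean of
`(SS_y - SS_{y'})²` is `∏_{p ≤ y'} E x_p² (∏_{y' < p ≤ y} E x_p² - 1) ≤ K / y'`. -/
def S_VMS {k : ℕ} (f : Fin k → ℤ[X]) : Prop := ∃ (K : ℝ) (X₀ : ℕ), 0 < K ∧ ∀ X : ℕ, X₀ ≤ X → ∀ y y' : ℕ, 1 ≤ y' → y' ≤ y →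
  (y : ℝ) ^ 2 ≤ Real.log X →
  ∑ a ∈ Bx k X, SS f a y ^ 2 ≤ K * (X : ℝ) ^ k ∧ ∑ a ∈ Bx k X, (SS f a y - SS f a y') ^ 2 ≤ K * (X : ℝ) ^ k / y'

/-- **V1** (from GVO and GVD). Written by helper285. -/
def S_V1 {k : ℕ} (f : Fin k → ℤ[X]) : Prop := ∀ (ε : ℝ) (U C D : ℕ), 0 < ε → ∃ E1 : ℕ, ∀ E : ℕ, E1 ≤ E → ∃ B X₀ : ℕ,
  ∀ X : ℕ, X₀ ≤ X → ∀ m₀ M H : ℕ, 1 ≤ H → (H : ℝ) ≤ Real.log X ^ D →
  (∀ l, (X : ℝ) ^ (1 / 3 : ℝ) * Real.log X ^ B ≤ (M : ℝ) ^ ((f l).natDegree - 1)) →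
  (∀ l, ((m₀ : ℝ) + M) ^ (f l).natDegree ≤ X * Real.log X ^ C) → ∀ ω : ℕ → ℝ, (∀ n, |ω n| ≤ 1) →
  |MM k ω (fun a n => pr f (fun _ => uu) a n - pr f (fun _ => vv ⌊Real.log X ^ E⌋₊) a n) X m₀ M H -
    (2 * X / Real.log X) ^ k * ∑ m ∈ Ioc m₀ (m₀ + M), ∑ n ∈ Ioc m (m + H), ω n ^ 2| ≤
    (2 * X : ℝ) ^ k * (ε * (∑ m ∈ Ioc m₀ (m₀ + M), ∑ n ∈ Ioc m (m + H), ω n ^ 2) / Real.log X ^ k +
      M * (H : ℝ) ^ 2 / Real.log X ^ U)

/-- **V2** (from V1, `G.S_GSM2`, `G.S_GFL`, VMS). Written by helper285. -/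
def S_V2 {k : ℕ} (f : Fin k → ℤ[X]) : Prop := ∀ ε T : ℝ, 0 < ε → 0 < T → ∃ y0 : ℕ, ∀ C : ℕ, ∃ B X₀ : ℕ, ∀ X : ℕ, X₀ ≤ X →
  ∀ m₀ M : ℕ, (∀ l, (X : ℝ) ^ (1 / 3 : ℝ) * Real.log X ^ B ≤ (M : ℝ) ^ ((f l).natDegree - 1)) →
  (∀ l, ((m₀ : ℝ) + M) ^ (f l).natDegree ≤ X * Real.log X ^ C) → ∀ y : ℕ, y0 ≤ y → (y : ℝ) ^ 2 ≤ Real.log X →
  ∀ H : ℕ, 1 ≤ H → (H : ℝ) ≤ T * Real.log X ^ k →
    |∑ a ∈ Bx k X, ∑ m ∈ Ioc m₀ (m₀ + M), ((P f a m H : ℝ) - SS f a y * (H / Real.log X ^ k)) ^ 2 -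
      (2 * X : ℝ) ^ k * M * (H / Real.log X ^ k)| ≤ ε * ((2 * X : ℝ) ^ k * M)

end Run7.h285.V
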