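import Pool.Agent.Run7.h285.V.V2c
import Pool.Agent.Run7.h376.V.Main
import Pool.Agent.Run7.h270.V.GVO
import Pool.Agent.Run7.h811.V.GVD
import Pool.Agent.Run7.h760.V.VMS
import Pool.Agent.Run7.h212.G.CF
import Pool.Agent.Run7.h973.G.SM2
import Pool.Agent.Run7.h882.G.FL
import Pool.Agent.Run7.h794.MK.All

/-!
# Project VAR: the theorems without hypotheses
-/

set_option autoImplicit false

namespace Run7.h285.V

open Polynomial
open Run7.h285.G (Gd)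

theorem v1_all {k : ℕ} (f : Fin k → ℤ[X]) (hk : 1 ≤ k) (hf : ∀ l, Gd (f l)) : S_V1 f :=
  v1 f (Run7.h270.V.gvo f hf fun l => Run7.h376.V.gcm Pool.Agent.Run7.h794.MK.law_all (hf l)) (Run7.h811.V.gvd hk f)

theorem v2_all {k : ℕ} (f : Fin k → ℤ[X]) (hk : 1 ≤ k) (hf : ∀ l, Gd (f l)) : S_V2 f :=
  v2 f hk hf (v1_all f hk hf) (Run7.h973.G.gsm2 f hf fun l => Run7.h212.G.gcf (f l) (hf l)) (Run7.h882.G.gfl f)
    (Pool.Agent.Run7.h760.VMS.vms f hf)

end Run7.h285.V
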