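import Pool.Agent.Run7.h285.V.Stm
import Pool.Agent.Run7.h285.G.GENb

/-!
# Project VAR: the variance around the sieve model (assembly)
-/

set_option autoImplicit false

namespace Run7.h285.V

open Finset Filter Topology Polynomial
open Pool.Agent.TH892.SW (ff wt)
open Run7.h285.S (Bx uu vv ll gg)
open Run7.h285.G (Gd pr MM val_le)
open Pool.Agent.H442R2.EHI (evt_log_pow evt_log_ge)

/-- **V1** -/
theorem v1 {k : ℕ} (f : Fin k → ℤ[X]) (h1 : S_GVO f) (h2 : S_GVD f) : S_V1 f := by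
  intro ε U C D hε
  obtain ⟨E1, h1⟩ := h1 U C D
  refine ⟨max E1 1, fun E hE => ?_⟩
  obtain ⟨B, X1, h1⟩ := h1 E (le_trans (le_max_left _ _) hE)
  obtain ⟨X2, h2⟩ := h2 ε (C + 2) E hε (le_trans (le_max_right _ _) hE)
  choose K hK0 hK using fun i : Fin k => val_le (f i)
  have hev : ∀ᶠ X : ℕ in atTop, (∑ i, K i + 1 : ℝ) ≤ Real.log X ∧
      ∀ i : Fin k, Real.log X ^ (D * (f i).natDegree) ≤ (X : ℝ) ^ (1 : ℝ) := by
    have h3 := Filter.eventually_all.2 fun i : Fin k => evt_log_pow (D * (f i).natDegree) 1 (by norm_num)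
    filter_upwards [evt_log_ge _, h3] with X a1 a2
    exact ⟨a1, a2⟩
  obtain ⟨X3, hX3⟩ := eventually_atTop.1 hev
  refine ⟨B, X1 + X2 + X3, fun X hX m₀ M H hH hHD hM hW ω hω => ?_⟩
  have h1 := h1 X (by omega) m₀ M H hH hHD hM hW ω hω
  have h2 := h2 X (by omega)
  obtain ⟨hl, hlX⟩ := hX3 X (by omega)
  clear hX3 hev
  have hKs : 0 ≤ ∑ i, K i := sum_nonneg fun i _ => (hK0 i).le
  have hl1 : 1 ≤ Real.log X := by linarith
  have hXp : 1 ≤ X := by
    rcases Nat.eq_zero_or_pos X with h | h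
    · rw [h] at hl1; norm_num at hl1
    · exact h
  have hX1 : (1 : ℝ) ≤ X := by exact_mod_cast hXp
  have hval : ∀ m ∈ Ioc m₀ (m₀ + M), ∀ n ∈ Ioc m (m + H), ∀ i,
      (((f i).eval (n : ℤ)).natAbs : ℝ) ≤ X * Real.log X ^ (C + 2) := by
    intro m hm n hn i
    have h3 := hK i X m₀ M C m H n (Real.log X) 0 (by
      have : K i ≤ ∑ i, K i := single_le_sum (f := K) (fun j _ => (hK0 j).le) (mem_univ i)
      linarith) hl1 hX1 (by rw [mem_Icc]; constructor <;> omega) hm (hW i) (by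
        refine (pow_le_pow_left₀ (Nat.cast_nonneg _) hHD _).trans ?_
        rw [← pow_mul]
        have h4 := hlX i
        rw [Real.rpow_one] at h4
        exact h4.trans (le_mul_of_one_le_right (by linarith) (one_le_pow₀ hl1))) hn
    rw [add_zero] at h3
    exact h3
  have hXk : 0 < (2 * (X : ℝ) / Real.log X) ^ k := by positivity
  have h5 : |∑ m ∈ Ioc m₀ (m₀ + M), ∑ n ∈ Ioc m (m + H), ω n ^ 2 *
      ∑ a ∈ Bx k X, (pr f (fun _ => uu) a n - pr f (fun _ => vv ⌊Real.log X ^ E⌋₊) a n) ^ 2 -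
      (2 * X / Real.log X) ^ k * ∑ m ∈ Ioc m₀ (m₀ + M), ∑ n ∈ Ioc m (m + H), ω n ^ 2| ≤
      ε * (2 * X / Real.log X) ^ k * ∑ m ∈ Ioc m₀ (m₀ + M), ∑ n ∈ Ioc m (m + H), ω n ^ 2 := by
    rw [mul_sum, mul_sum, ← sum_sub_distrib]
    refine (abs_sum_le_sum_abs _ _).trans (sum_le_sum fun m hm => ?_)
    rw [mul_sum, mul_sum, ← sum_sub_distrib]
    refine (abs_sum_le_sum_abs _ _).trans (sum_le_sum fun n hn => ?_)
    have h6 := h2 n (hval m hm n hn)
    rw [mul_comm ((2 * (X : ℝ) / Real.log X) ^ k), ← mul_sub, abs_mul, abs_of_nonneg (sq_nonneg (ω n))]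
    have h7 := mul_le_mul_of_nonneg_left h6 (sq_nonneg (ω n))
    linarith
  have h6 : (X : ℝ) ^ k * (M * (H : ℝ) ^ 2 / Real.log X ^ U) ≤ (2 * X : ℝ) ^ k * (M * (H : ℝ) ^ 2 / Real.log X ^ U) := by
    apply mul_le_mul_of_nonneg_right _ (by positivity)
    apply pow_le_pow_left₀ (by linarith)
    linarith
  have h7 : (2 * X : ℝ) ^ k * (ε * (∑ m ∈ Ioc m₀ (m₀ + M), ∑ n ∈ Ioc m (m + H), ω n ^ 2) / Real.log X ^ k +
      M * (H : ℝ) ^ 2 / Real.log X ^ U) = ε * (2 * X / Real.log X) ^ k * (∑ m ∈ Ioc m₀ (m₀ + M), ∑ n ∈ Ioc m (m + H), ω n ^ 2) +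
      (2 * X : ℝ) ^ k * (M * (H : ℝ) ^ 2 / Real.log X ^ U) := by
    rw [div_pow]
    ring
  rw [h7]
  have h8 := abs_le.1 h1
  have h9 := abs_le.1 h5
  rw [abs_le]
  constructor <;> linarith

end Run7.h285.V
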