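import Pool.Agent.Run7.h285.V.V2b

/-!
# Project VAR: the number variance (assembly)
-/

set_option autoImplicit false

namespace Run7.h285.V

open Finset Filter Topology Polynomial
open Pool.Agent.TH892.SW (ff wt)
open Pool.Agent.H373R2.T7 (pz Vz lamz mem_pz Vz_ge)
open Pool.Agent.TH892.OW (evt_ll)
open Run7.h285.S (Bx uu vv ll gg prod_close pow_small wt_close)
open Run7.h285.G (Gd pr MM nu SS Adm P W nn P_eq val_all)
open Pool.Agent.H442R2.EHI (evt_log_pow evt_log_ge)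

/-- the small values, arithmetic -/
lemma ar_nn (k : ℕ) (hk : 1 ≤ k) (X L T H M V δ κ : ℝ) (hX : 1 ≤ X) (hL : 1 ≤ L) (hκ : κ = X / L ^ (3 * k + 1))
    (hLX : L ^ (3 * k + 1) ≤ X) (hV : 0 ≤ V) (hVL : V ^ 2 ≤ L) (hH0 : 0 ≤ H) (hH : H ≤ T * L ^ k) (hM : 0 ≤ M)
    (hδ : 0 < δ) (hb : 4 * 4 ^ (k + 1) * T ^ 2 * k * 3 ^ k / δ ≤ L) :
    2 * ((2 ^ (k + 1) * V ^ k) ^ 2 * (H * (M * (H * (k * ((2 * κ + 1) * (2 * X + 1) ^ (k - 1))))))) ≤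
      δ / 2 * ((2 * X) ^ k * M) := by
  have hL0 : 0 < L := by linarith
  have hX0 : 0 < X := by linarith
  have hLp : 0 < L ^ (3 * k + 1) := by positivity
  have h1 : 2 * κ + 1 ≤ 3 * X / L ^ (3 * k + 1) := by
    have : 1 ≤ X / L ^ (3 * k + 1) := by rw [one_le_div hLp]; exact hLX
    have e : 3 * X / L ^ (3 * k + 1) = 2 * (X / L ^ (3 * k + 1)) + X / L ^ (3 * k + 1) := by ring
    rw [hκ, e]; linarith
  have h2 : (2 * X + 1) ^ (k - 1) ≤ (3 * X) ^ (k - 1) := pow_le_pow_left₀ (by positivity) (by linarith) _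
  have hκ0 : 0 ≤ 2 * κ + 1 := by rw [hκ]; positivity
  have h3 : (2 * κ + 1) * (2 * X + 1) ^ (k - 1) ≤ (3 * X) ^ k / L ^ (3 * k + 1) := by
    have e : (3 * X) ^ k = 3 * X * (3 * X) ^ (k - 1) := by rw [← pow_succ', Nat.sub_add_cancel hk]
    calc (2 * κ + 1) * (2 * X + 1) ^ (k - 1) ≤ 3 * X / L ^ (3 * k + 1) * (3 * X) ^ (k - 1) :=
          mul_le_mul h1 h2 (by positivity) (by positivity)
      _ = _ := by rw [e]; ring
  have h4 : (2 ^ (k + 1) * V ^ k) ^ 2 ≤ 4 ^ (k + 1) * L ^ k := by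
    have e : (2 ^ (k + 1) * V ^ k) ^ 2 = 4 ^ (k + 1) * (V ^ 2) ^ k := by
      rw [mul_pow, ← pow_mul, ← pow_mul, ← pow_mul, mul_comm (k + 1) 2, pow_mul 2 2 (k + 1), mul_comm k 2]
      norm_num
    rw [e]
    exact mul_le_mul_of_nonneg_left (pow_le_pow_left₀ (sq_nonneg _) hVL _) (by positivity)
  have hH2 : H * H ≤ T ^ 2 * L ^ (2 * k) := by
    have e : T ^ 2 * L ^ (2 * k) = (T * L ^ k) * (T * L ^ k) := by ring
    rw [e]
    exact mul_le_mul hH hH hH0 (le_trans hH0 hH)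
  have e1 : 2 * ((2 ^ (k + 1) * V ^ k) ^ 2 * (H * (M * (H * (k * ((2 * κ + 1) * (2 * X + 1) ^ (k - 1))))))) =
      2 * ((2 ^ (k + 1) * V ^ k) ^ 2 * (H * H) * ((2 * κ + 1) * (2 * X + 1) ^ (k - 1)) * (M * k)) := by ring
  rw [e1]
  have h5 : (2 ^ (k + 1) * V ^ k) ^ 2 * (H * H) * ((2 * κ + 1) * (2 * X + 1) ^ (k - 1)) * (M * k) ≤
      4 ^ (k + 1) * L ^ k * (T ^ 2 * L ^ (2 * k)) * ((3 * X) ^ k / L ^ (3 * k + 1)) * (M * k) := by gcongr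
  have e2 : 4 ^ (k + 1) * L ^ k * (T ^ 2 * L ^ (2 * k)) * ((3 * X) ^ k / L ^ (3 * k + 1)) * (M * k) =
      (4 ^ (k + 1) * T ^ 2 * k * 3 ^ k) / L * (X ^ k * M) := by
    have e3 : L ^ (3 * k + 1) = L ^ k * L ^ (2 * k) * L := by ring
    rw [e3, mul_pow]
    field_simp
  rw [e2] at h5
  have h6 : (4 ^ (k + 1) * T ^ 2 * k * 3 ^ k) / L ≤ δ / 4 := by
    rw [div_le_iff₀ hL0]
    rw [div_le_iff₀ hδ] at hb
    linarith
  have h7 : X ^ k * M ≤ (2 * X) ^ k * M :=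
    mul_le_mul_of_nonneg_right (pow_le_pow_left₀ hX0.le (by linarith) _) hM
  have h8 : (4 ^ (k + 1) * T ^ 2 * k * 3 ^ k) / L * (X ^ k * M) ≤ δ / 4 * ((2 * X) ^ k * M) :=
    mul_le_mul h6 h7 (by positivity) (by positivity)
  linarith

/-- short windows, arithmetic -/
lemma ar_short (k : ℕ) (hk : 1 ≤ k) (X L H M W S K δ c : ℝ) (hX : 1 ≤ X) (hL : 1 ≤ L) (hc : c = 1 / L ^ k) (hH0 : 0 ≤ H)
    (hH : H ^ 2 ≤ L) (hW : W ≤ √L) (hS : S ≤ K * X ^ k) (hK : 0 ≤ K) (hM : 0 ≤ M) (hδ : 0 < δ)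
    (hb : 2 * (3 ^ k + K) / δ ≤ √L) :
    c ^ 2 * (2 * H ^ 2 * M * (W * (3 * X) ^ k + S)) ≤ δ * ((2 * X) ^ k * M) := by
  have hL0 : 0 < L := by linarith
  have hs1 : 1 ≤ √L := by rw [Real.one_le_sqrt]; exact hL
  have hss : √L * √L = L := Real.mul_self_sqrt hL0.le
  have hc2 : c ^ 2 * L ≤ 1 / L := by
    have hLk : L ≤ L ^ k := le_self_pow₀ hL (by omega)
    rw [hc, div_pow, one_pow, div_mul_eq_mul_div, one_mul, div_le_div_iff₀ (by positivity) hL0]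
    nlinarith
  have h1 : W * (3 * X) ^ k + S ≤ (3 ^ k + K) * √L * X ^ k := by
    have a1 : W * (3 * X) ^ k ≤ √L * (3 ^ k * X ^ k) := by
      rw [← mul_pow]
      exact mul_le_mul_of_nonneg_right hW (by positivity)
    have a2 : K * X ^ k ≤ K * √L * X ^ k := by
      have : K * 1 ≤ K * √L := mul_le_mul_of_nonneg_left hs1 hK
      rw [mul_one] at this
      exact mul_le_mul_of_nonneg_right this (by positivity)
    have e : (3 ^ k + K) * √L * X ^ k = √L * (3 ^ k * X ^ k) + K * √L * X ^ k := by ring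
    rw [e]; linarith
  have hq : 0 ≤ (3 ^ k + K) * √L * X ^ k := by positivity
  have h2 : c ^ 2 * (2 * H ^ 2 * M * (W * (3 * X) ^ k + S)) ≤ c ^ 2 * (2 * L * M * ((3 ^ k + K) * √L * X ^ k)) := by
    apply mul_le_mul_of_nonneg_left _ (sq_nonneg c)
    have a1 : 2 * H ^ 2 * M * (W * (3 * X) ^ k + S) ≤ 2 * H ^ 2 * M * ((3 ^ k + K) * √L * X ^ k) :=
      mul_le_mul_of_nonneg_left h1 (by positivity)
    refine a1.trans (mul_le_mul_of_nonneg_right ?_ hq)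
    exact mul_le_mul_of_nonneg_right (by linarith) hM
  refine h2.trans ?_
  have e3 : c ^ 2 * (2 * L * M * ((3 ^ k + K) * √L * X ^ k)) = (c ^ 2 * L) * (2 * (3 ^ k + K) * √L) * (X ^ k * M) := by ring
  rw [e3]
  have h3 : (c ^ 2 * L) * (2 * (3 ^ k + K) * √L) ≤ δ := by
    calc (c ^ 2 * L) * (2 * (3 ^ k + K) * √L) ≤ 1 / L * (2 * (3 ^ k + K) * √L) :=
          mul_le_mul_of_nonneg_right hc2 (by positivity)
      _ ≤ δ := by
          rw [div_mul_eq_mul_div, one_mul, div_le_iff₀ hL0]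
          rw [div_le_iff₀ hδ] at hb
          calc 2 * (3 ^ k + K) * √L ≤ √L * δ * √L := mul_le_mul_of_nonneg_right hb (by positivity)
            _ = δ * L := by rw [mul_right_comm, hss]; ring
  calc (c ^ 2 * L) * (2 * (3 ^ k + K) * √L) * (X ^ k * M) ≤ δ * (X ^ k * M) :=
        mul_le_mul_of_nonneg_right h3 (by positivity)
    _ ≤ δ * ((2 * X) ^ k * M) := by
        apply mul_le_mul_of_nonneg_left _ hδ.le
        exact mul_le_mul_of_nonneg_right (pow_le_pow_left₀ (by linarith) (by linarith) _) hM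

/-- comparison of the cuts, arithmetic -/
lemma ar_cut (X T K M S c H y δ y0 : ℝ) (k : ℕ) (hX : 1 ≤ X) (hK : 0 < K) (hM : 0 ≤ M) (hδ : 0 < δ)
    (hS : S ≤ K * X ^ k / y) (hcH0 : 0 ≤ c * H) (hcH : c * H ≤ T) (hy0 : T ^ 2 * K / δ ≤ y0) (hyy : y0 ≤ y) (hy : 0 < y) :
    (c * H) ^ 2 * (M * S) ≤ δ * ((2 * X) ^ k * M) := by
  have h1 : (c * H) ^ 2 ≤ T ^ 2 := pow_le_pow_left₀ hcH0 hcH 2
  have h2 : (c * H) ^ 2 * (M * S) ≤ (c * H) ^ 2 * (M * (K * X ^ k / y)) := by gcongr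
  have h3 : (c * H) ^ 2 * (M * (K * X ^ k / y)) ≤ T ^ 2 * (M * (K * X ^ k / y)) :=
    mul_le_mul_of_nonneg_right h1 (by positivity)
  have h4 : T ^ 2 * (M * (K * X ^ k / y)) = T ^ 2 * K / y * (X ^ k * M) := by ring
  have h5 : T ^ 2 * K / y ≤ δ := by
    rw [div_le_iff₀ hδ] at hy0
    rw [div_le_iff₀ hy]
    nlinarith
  have h6 : X ^ k * M ≤ (2 * X) ^ k * M :=
    mul_le_mul_of_nonneg_right (pow_le_pow_left₀ (by linarith) (by linarith) _) hM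
  have h7 : T ^ 2 * K / y * (X ^ k * M) ≤ δ * ((2 * X) ^ k * M) := mul_le_mul h5 h6 (by positivity) hδ.le
  linarith

/-- the difference of the models, arithmetic -/
lemma ar_mod (X L l2 T M H δ c Q : ℝ) (k : ℕ) (hk : 1 ≤ k) (hX : 1 ≤ X) (hL : 1 ≤ L) (hc : c = 1 / L ^ k) (hM : 0 ≤ M)
    (hδ : 0 < δ) (hT : 1 ≤ T) (hH0 : 0 ≤ H) (hH : H ≤ T * L ^ k) (hb1 : 2 * T / δ ≤ √L) (hl2 : 0 < l2)
    (hb2 : 2 * T ^ 2 / δ ≤ l2) (hQ : Q ≤ X ^ k * M * (H * √L + H ^ 2 / l2 ^ 1)) :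
    c ^ 2 * Q ≤ δ * ((2 * X) ^ k * M) := by
  have hL0 : 0 < L := by linarith
  have hs0 : 0 < √L := Real.sqrt_pos.2 hL0
  have hss : √L * √L = L := Real.mul_self_sqrt hL0.le
  have hLk : L ≤ L ^ k := le_self_pow₀ hL (by omega)
  have hLk0 : 0 < L ^ k := by positivity
  have h1 : c ^ 2 * Q ≤ c ^ 2 * (X ^ k * M * (H * √L + H ^ 2 / l2 ^ 1)) := mul_le_mul_of_nonneg_left hQ (sq_nonneg c)
  have e1 : c ^ 2 * (X ^ k * M * (H * √L + H ^ 2 / l2 ^ 1)) = (c ^ 2 * (H * √L) + (c * H) ^ 2 / l2) * (X ^ k * M) := by ring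
  rw [e1] at h1
  have h2 : c * H ≤ T := by
    rw [hc, div_mul_eq_mul_div, one_mul, div_le_iff₀ hLk0]; exact hH
  have hc0 : 0 ≤ c := by rw [hc]; positivity
  have hcH0 : 0 ≤ c * H := mul_nonneg hc0 hH0
  have h3 : c ^ 2 * (H * √L) ≤ δ / 2 := by
    have a1 : c * √L ≤ 1 / √L := by
      rw [hc, div_mul_eq_mul_div, one_mul, div_le_div_iff₀ hLk0 hs0, hss, one_mul]
      exact hLk
    have e : c ^ 2 * (H * √L) = (c * H) * (c * √L) := by ring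
    rw [e]
    calc (c * H) * (c * √L) ≤ T * (1 / √L) := mul_le_mul h2 a1 (by positivity) (by linarith)
      _ ≤ δ / 2 := by
          rw [mul_one_div, div_le_iff₀ hs0]
          rw [div_le_iff₀ hδ] at hb1
          linarith
  have h4 : (c * H) ^ 2 / l2 ≤ δ / 2 := by
    rw [div_le_iff₀ hl2]
    rw [div_le_iff₀ hδ] at hb2
    have := pow_le_pow_left₀ hcH0 h2 2
    linarith
  have h5 : X ^ k * M ≤ (2 * X) ^ k * M :=
    mul_le_mul_of_nonneg_right (pow_le_pow_left₀ (by linarith) (by linarith) _) hM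
  calc c ^ 2 * Q ≤ (c ^ 2 * (H * √L) + (c * H) ^ 2 / l2) * (X ^ k * M) := h1
    _ ≤ δ * (X ^ k * M) := mul_le_mul_of_nonneg_right (by linarith) (by positivity)
    _ ≤ _ := mul_le_mul_of_nonneg_left h5 hδ.le

/-- the weights, arithmetic -/
lemma ar_wt (N δ T K ε₂ c m1 q z2 : ℝ) (hN : 0 ≤ N) (hδ : 0 < δ) (hK : 0 < K)
    (he : ε₂ ^ 2 * (4 * (6 * δ + 4 * (T ^ 2 * K))) ≤ δ) (hq : c ^ 2 * q ≤ (6 * δ + 4 * (T ^ 2 * K)) * N)
    (hz : z2 ≤ δ / 2 * N) (h : m1 ≤ 2 * ((ε₂ * c) ^ 2 * q) + z2) : m1 ≤ δ * N := by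
  have e : (ε₂ * c) ^ 2 * q = ε₂ ^ 2 * (c ^ 2 * q) := by ring
  rw [e] at h
  have h1 : ε₂ ^ 2 * (c ^ 2 * q) ≤ ε₂ ^ 2 * ((6 * δ + 4 * (T ^ 2 * K)) * N) := mul_le_mul_of_nonneg_left hq (sq_nonneg _)
  have h2 : ε₂ ^ 2 * ((6 * δ + 4 * (T ^ 2 * K)) * N) = (ε₂ ^ 2 * (4 * (6 * δ + 4 * (T ^ 2 * K)))) * N / 4 := by ring
  have h3 : (ε₂ ^ 2 * (4 * (6 * δ + 4 * (T ^ 2 * K)))) * N ≤ δ * N := mul_le_mul_of_nonneg_right he hN
  linarith

/-- the cut `w` -/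
lemma cut_w (l : ℝ) (u c1 k Y : ℕ) (hl : 10000 ≤ l) (hu : 2 ≤ u) (hu1 : 2 * c1 ≤ u) (hu2 : 8 * k ≤ u)
    (hlu : (Y : ℝ) + 1 ≤ l ^ (1 / (u : ℝ))) :
    Y ≤ ⌊l ^ (1 / (u : ℝ))⌋₊ ∧ ((⌊l ^ (1 / (u : ℝ))⌋₊ : ℕ) : ℝ) ^ 2 ≤ l ∧
    ((⌊l ^ (1 / (u : ℝ))⌋₊ : ℕ) : ℝ) ^ c1 ≤ √l ∧ ((⌊l ^ (1 / (u : ℝ))⌋₊ : ℕ) : ℝ) ^ (2 * k) ≤ √l := by
  have hl0 : 0 < l := by linarith
  have hl1 : 1 ≤ l := by linarith
  have hur : (0 : ℝ) < u := by exact_mod_cast (by omega : 0 < u)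
  obtain ⟨w, hw⟩ : ∃ w, w = ⌊l ^ (1 / (u : ℝ))⌋₊ := ⟨_, rfl⟩
  rw [← hw]
  have hwl : (w : ℝ) ≤ l ^ (1 / (u : ℝ)) := by rw [hw]; exact Nat.floor_le (by positivity)
  have hg : ∀ c : ℕ, (w : ℝ) ^ c ≤ l ^ ((c : ℝ) / u) := by
    intro c
    calc (w : ℝ) ^ c ≤ (l ^ (1 / (u : ℝ))) ^ c := pow_le_pow_left₀ (Nat.cast_nonneg _) hwl c
      _ = l ^ ((c : ℝ) / u) := by
          rw [← Real.rpow_natCast, ← Real.rpow_mul hl0.le]
          congr 1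
          ring
  refine ⟨?_, ?_, ?_, ?_⟩
  · rw [hw]
    apply Nat.le_floor
    linarith
  · refine (hg 2).trans ?_
    calc l ^ (((2 : ℕ) : ℝ) / u) ≤ l ^ (1 : ℝ) := by
          apply Real.rpow_le_rpow_of_exponent_le hl1
          rw [div_le_one hur]; exact_mod_cast hu
      _ = l := Real.rpow_one l
  · refine (hg c1).trans ?_
    rw [Real.sqrt_eq_rpow]
    apply Real.rpow_le_rpow_of_exponent_le hl1
    rw [div_le_div_iff₀ hur (by norm_num)]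
    have : ((2 * c1 : ℕ) : ℝ) ≤ u := by exact_mod_cast hu1
    push_cast at this
    linarith
  · refine (hg (2 * k)).trans ?_
    rw [Real.sqrt_eq_rpow]
    apply Real.rpow_le_rpow_of_exponent_le hl1
    rw [div_le_div_iff₀ hur (by norm_num)]
    have : ((8 * k : ℕ) : ℝ) ≤ u := by exact_mod_cast hu2
    push_cast at this ⊢
    have hk0 : (0 : ℝ) ≤ k := Nat.cast_nonneg _
    linarith

end Run7.h285.V
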