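import Pool.Agent.Run7.h285.V.V1
import Pool.Agent.Run7.h285.G.GENa
import Pool.Agent.Run7.h109.G.HG2

/-!
# Project VAR: the number variance, lemmas
-/

set_option autoImplicit false

namespace Run7.h285.V

open Finset Filter Topology Polynomial
open Pool.Agent.TH892.SW (ff wt)
open Pool.Agent.H373R2.T7 (pz Vz lamz mem_pz)
open Run7.h285.S (Bx uu vv ll gg card_slice)
open Run7.h285.E3 (near_a)
open Run7.h285.G (Gd pr MM nu SS Adm P W nn sum_near pr_vv pr_ll_nonneg pr_ll_le P_eq)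

/-- the second moment over pairs -/
noncomputable def Mo {α : Type} (A : Finset α) (B : Finset ℕ) (G : α → ℕ → ℝ) : ℝ := ∑ a ∈ A, ∑ m ∈ B, G a m ^ 2

lemma Mo_nonneg {α : Type} (A : Finset α) (B : Finset ℕ) (G : α → ℕ → ℝ) : 0 ≤ Mo A B G :=
  sum_nonneg fun _ _ => sum_nonneg fun _ _ => sq_nonneg _

lemma Mo_mono {α : Type} (A : Finset α) (B : Finset ℕ) (G G' : α → ℕ → ℝ) (h : ∀ a ∈ A, ∀ m ∈ B, |G a m| ≤ G' a m) :
    Mo A B G ≤ Mo A B G' := by
  unfold Mo
  refine sum_le_sum fun a ha => sum_le_sum fun m hm => ?_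
  have h1 := h a ha m hm
  exact sq_le_sq' (by linarith [neg_abs_le (G a m)]) ((le_abs_self _).trans h1)

lemma Mo_smul {α : Type} (A : Finset α) (B : Finset ℕ) (G : α → ℕ → ℝ) (c : ℝ) :
    Mo A B (fun a m => c * G a m) = c ^ 2 * Mo A B G := by
  unfold Mo
  rw [mul_sum]
  refine sum_congr rfl fun a _ => ?_
  rw [mul_sum]
  exact sum_congr rfl fun m _ => by ring

lemma Mo_add {α : Type} (A : Finset α) (B : Finset ℕ) (G G' : α → ℕ → ℝ) :
    Mo A B (fun a m => G a m + G' a m) ≤ 2 * Mo A B G + 2 * Mo A B G' := by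
  unfold Mo
  rw [mul_sum, mul_sum, ← sum_add_distrib]
  refine sum_le_sum fun a _ => ?_
  rw [mul_sum, mul_sum, ← sum_add_distrib]
  refine sum_le_sum fun m _ => ?_
  nlinarith [sq_nonneg (G a m - G' a m)]

lemma Mo_add4 {α : Type} (A : Finset α) (B : Finset ℕ) (G1 G2 G3 G4 : α → ℕ → ℝ) :
    Mo A B (fun a m => G1 a m + G2 a m + G3 a m + G4 a m) ≤ 4 * (Mo A B G1 + Mo A B G2 + Mo A B G3 + Mo A B G4) := by
  unfold Mo
  rw [← sum_add_distrib, ← sum_add_distrib, ← sum_add_distrib, mul_sum]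
  refine sum_le_sum fun a _ => ?_
  rw [← sum_add_distrib, ← sum_add_distrib, ← sum_add_distrib, mul_sum]
  refine sum_le_sum fun m _ => ?_
  nlinarith [sq_nonneg (G1 a m - G2 a m), sq_nonneg (G1 a m - G3 a m), sq_nonneg (G1 a m - G4 a m),
    sq_nonneg (G2 a m - G3 a m), sq_nonneg (G2 a m - G4 a m), sq_nonneg (G3 a m - G4 a m)]

/-- the second moment of a sum with a small second term -/
lemma Mo_pert {α : Type} (A : Finset α) (B : Finset ℕ) (N G R : α → ℕ → ℝ) (η : ℝ) (hη : 0 < η)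
    (h : ∀ a ∈ A, ∀ m ∈ B, N a m = G a m + R a m) :
    |Mo A B N - Mo A B G| ≤ η * Mo A B G + (1 + 1 / η) * Mo A B R := by
  unfold Mo
  rw [mul_sum, mul_sum, ← sum_sub_distrib, ← sum_add_distrib]
  refine (abs_sum_le_sum_abs _ _).trans (sum_le_sum fun a ha => ?_)
  rw [mul_sum, mul_sum, ← sum_sub_distrib, ← sum_add_distrib]
  refine (abs_sum_le_sum_abs _ _).trans (sum_le_sum fun m hm => ?_)
  rw [h a ha m hm]
  obtain ⟨x, hx⟩ : ∃ x, x = G a m := ⟨_, rfl⟩
  obtain ⟨y, hy⟩ : ∃ y, y = R a m := ⟨_, rfl⟩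
  rw [← hx, ← hy]
  have e1 : (x + y) ^ 2 - x ^ 2 = 2 * x * y + y ^ 2 := by ring
  rw [e1]
  have e2 : η * x ^ 2 + (1 + 1 / η) * y ^ 2 - (2 * x * y + y ^ 2) = (η * x - y) ^ 2 / η := by
    field_simp; ring
  have e3 : η * x ^ 2 + (1 + 1 / η) * y ^ 2 + (2 * x * y + y ^ 2) = (η * x + y) ^ 2 / η + 2 * y ^ 2 := by
    field_simp; ring
  have p1 : 0 ≤ (η * x - y) ^ 2 / η := by positivity
  have p2 : 0 ≤ (η * x + y) ^ 2 / η := by positivity
  rw [abs_le]
  constructor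
  · nlinarith [sq_nonneg y]
  · linarith

/-- the second moment of functions of the first variable -/
lemma Mo_fst {α : Type} (A : Finset α) (B : Finset ℕ) (G : α → ℝ) : Mo A B (fun a _ => G a) = #B * ∑ a ∈ A, G a ^ 2 := by
  unfold Mo
  rw [mul_sum]
  refine sum_congr rfl fun a _ => ?_
  rw [sum_const, nsmul_eq_mul]

open Classical in
/-- the mean of the number of the small values -/
lemma nn_mean {k : ℕ} (f : Fin k → ℤ[X]) (X m₀ M H : ℕ) (κ : ℝ) (hκ : 0 ≤ κ) :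
    ∑ a ∈ Bx k X, ∑ m ∈ Ioc m₀ (m₀ + M), (nn f a m H κ : ℝ) ≤
      M * (H * (k * ((2 * κ + 1) * (2 * X + 1) ^ (k - 1)))) := by
  rw [sum_comm]
  have h1 : ∀ m ∈ Ioc m₀ (m₀ + M), ∑ a ∈ Bx k X, (nn f a m H κ : ℝ) ≤ H * (k * ((2 * κ + 1) * (2 * X + 1) ^ (k - 1))) := by
    intro m _
    have e1 : ∑ a ∈ Bx k X, (nn f a m H κ : ℝ) =
        ∑ n ∈ Ioc m (m + H), (#((Bx k X).filter (fun a => ∃ l, (((f l).eval (n : ℤ) + a l).natAbs : ℝ) < κ)) : ℝ) := by
      unfold nn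
      simp_rw [card_filter]
      push_cast
      exact sum_comm
    rw [e1]
    have h2 : ∀ n ∈ Ioc m (m + H), (#((Bx k X).filter (fun a => ∃ l, (((f l).eval (n : ℤ) + a l).natAbs : ℝ) < κ)) : ℝ) ≤
        k * ((2 * κ + 1) * (2 * X + 1) ^ (k - 1)) := by
      intro n _
      have h3 : (Bx k X).filter (fun a => ∃ l, (((f l).eval (n : ℤ) + a l).natAbs : ℝ) < κ) ⊆
          univ.biUnion fun l : Fin k => (Bx k X).filter (fun a => (((f l).eval (n : ℤ) + a l).natAbs : ℝ) < κ) := by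
        intro a ha
        rw [mem_filter] at ha
        obtain ⟨l, hl⟩ := ha.2
        exact mem_biUnion.2 ⟨l, mem_univ _, mem_filter.2 ⟨ha.1, hl⟩⟩
      have h4 := (card_le_card h3).trans card_biUnion_le
      have h5 : (#((Bx k X).filter (fun a => ∃ l, (((f l).eval (n : ℤ) + a l).natAbs : ℝ) < κ)) : ℝ) ≤
          ∑ l : Fin k, (#((Bx k X).filter (fun a => (((f l).eval (n : ℤ) + a l).natAbs : ℝ) < κ)) : ℝ) := by exact_mod_cast h4
      refine h5.trans ?_
      refine (sum_le_sum fun l _ => card_slice k X l (fun c => (((f l).eval (n : ℤ) + c).natAbs : ℝ) < κ) (2 * κ + 1)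
        (near_a _ _ κ hκ)).trans (le_of_eq ?_)
      rw [sum_const, card_univ, Fintype.card_fin, nsmul_eq_mul]
    refine (sum_le_sum h2).trans (le_of_eq ?_)
    rw [sum_const, Nat.card_Ioc, nsmul_eq_mul, Nat.add_sub_cancel_left]
  refine (sum_le_sum h1).trans (le_of_eq ?_)
  rw [sum_const, Nat.card_Ioc, nsmul_eq_mul, Nat.add_sub_cancel_left]

lemma nn_le {k : ℕ} (f : Fin k → ℤ[X]) (a : Fin k → ℤ) (m H : ℕ) (κ : ℝ) : nn f a m H κ ≤ H := by
  unfold nn
  refine (card_filter_le _ _).trans ?_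
  rw [Nat.card_Ioc, Nat.add_sub_cancel_left]

/-- the second moment of the number of the small values -/
lemma nn_sq {k : ℕ} (f : Fin k → ℤ[X]) (X m₀ M H : ℕ) (κ : ℝ) (hκ : 0 ≤ κ) :
    Mo (Bx k X) (Ioc m₀ (m₀ + M)) (fun a m => (nn f a m H κ : ℝ)) ≤
      H * (M * (H * (k * ((2 * κ + 1) * (2 * X + 1) ^ (k - 1))))) := by
  refine le_trans ?_ (mul_le_mul_of_nonneg_left (nn_mean f X m₀ M H κ hκ) (Nat.cast_nonneg H))
  unfold Mo
  rw [mul_sum]
  refine sum_le_sum fun a _ => ?_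
  rw [mul_sum]
  refine sum_le_sum fun m _ => ?_
  rw [sq]
  have h1 : (nn f a m H κ : ℝ) ≤ H := by exact_mod_cast nn_le f a m H κ
  exact mul_le_mul_of_nonneg_right h1 (Nat.cast_nonneg _)

/-! ### tuples with a fixed prime divisor -/

lemma not_adm {k : ℕ} (f : Fin k → ℤ[X]) (hf : ∀ l, Gd (f l)) (a : Fin k → ℤ) (w : ℕ)
    (hw : Run7.h109.G.p0 f + Run7.h109.G.kap f ≤ w) (h : ¬ Adm f a) :
    SS f a w = 0 ∧ ∀ n : ℕ, pr f (fun _ => ll w) a n = 0 := by
  classical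
  unfold Adm at h
  push Not at h
  obtain ⟨p, hp, hpn⟩ := h
  have hpw : p ≤ w := by
    by_contra hcon
    push Not at hcon
    have := Run7.h109.G.nu_le f hf a p hp (by omega)
    omega
  have hp0 : (0 : ℝ) < p := by exact_mod_cast hp.pos
  have hnp : nu f a p = p := by
    apply le_antisymm _ hpn
    unfold nu
    exact (card_filter_le _ _).trans (card_range p).le
  have hall : ∀ x ∈ range p, ∃ l, (p : ℤ) ∣ (f l).eval (x : ℤ) + a l := by
    have h1 : (range p).filter (fun x : ℕ => ∃ l, (p : ℤ) ∣ (f l).eval (x : ℤ) + a l) = range p := by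
      apply eq_of_subset_of_card_le (filter_subset _ _)
      rw [card_range]
      refine le_trans hpn (le_of_eq ?_)
      unfold nu
      congr 1
    intro x hx
    rw [← h1, mem_filter] at hx
    exact hx.2
  constructor
  · unfold SS
    apply prod_eq_zero (i := p)
    · rw [mem_filter, mem_range]; exact ⟨by omega, hp⟩
    · rw [hnp, div_self hp0.ne', sub_self, zero_div]
  · intro n
    obtain ⟨l, hl⟩ := hall (n % p) (mem_range.2 (Nat.mod_lt _ hp.pos))
    have h1 : (p : ℤ) ∣ (f l).eval (n : ℤ) + a l := by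
      have h2 : (p : ℤ) ∣ (n : ℤ) - ((n % p : ℕ) : ℤ) := by
        rw [Int.natCast_mod]
        exact Int.dvd_self_sub_emod
      have h3 : (n : ℤ) - ((n % p : ℕ) : ℤ) ∣ (f l).eval (n : ℤ) - (f l).eval ((n % p : ℕ) : ℤ) := sub_dvd_eval_sub _ _ _
      have h4 := dvd_add (h2.trans h3) hl
      have h5 : (f l).eval (n : ℤ) - (f l).eval ((n % p : ℕ) : ℤ) + ((f l).eval ((n % p : ℕ) : ℤ) + a l) =
        (f l).eval (n : ℤ) + a l := by ring
      rwa [h5] at h4
    unfold pr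
    apply prod_eq_zero (mem_univ l)
    show lamz w ((f l).eval (n : ℤ) + a l).natAbs = 0
    unfold lamz
    rw [if_neg]
    intro h2
    have h3 := h2 p (mem_pz.2 ⟨hpw, hp⟩)
    exact h3 (Int.natCast_dvd.1 h1)

end Run7.h285.V
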