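import Pool.Agent.Run7.h285.V.V2a
import Pool.Agent.Run7.h285.G.GEN

/-!
# Project VAR: the number variance, the four error terms
-/

set_option autoImplicit false

namespace Run7.h285.V

open Finset Filter Topology Polynomial
open Pool.Agent.TH892.SW (ff wt)
open Pool.Agent.H373R2.T7 (pz Vz lamz mem_pz Vz_ge)
open Run7.h285.S (Bx uu vv ll gg card_slice)
open Run7.h285.G (Gd pr MM nu SS Adm P W nn sum_near pr_vv pr_ll_nonneg pr_ll_le P_eq)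

lemma w1 {k : ℕ} (f : Fin k → ℤ[X]) (X m₀ M H z : ℕ) (κ c ε₂ : ℝ) (hz : 2 ≤ z) (hc : 0 < c) (hc1 : c ≤ 1)
    (hε : 0 ≤ ε₂)
    (hwt : ∀ a ∈ Bx k X, ∀ m ∈ Ioc m₀ (m₀ + M), ∀ n ∈ Ioc m (m + H),
      (∀ l, κ ≤ (((f l).eval (n : ℤ) + a l).natAbs : ℝ)) →
      |∏ l, wt ((f l).eval (n : ℤ) + a l).natAbs - c| ≤ ε₂ * c) :
    Mo (Bx k X) (Ioc m₀ (m₀ + M)) (fun a m => ∑ n ∈ Ioc m (m + H), pr f (fun _ => vv z) a n -
        c * ∑ n ∈ Ioc m (m + H), pr f (fun _ => ll z) a n) ≤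
      2 * ((ε₂ * c) ^ 2 * Mo (Bx k X) (Ioc m₀ (m₀ + M)) (fun a m => ∑ n ∈ Ioc m (m + H), pr f (fun _ => ll z) a n)) +
      2 * ((2 ^ (k + 1) * ((Vz z)⁻¹) ^ k) ^ 2 * Mo (Bx k X) (Ioc m₀ (m₀ + M)) (fun a m => (nn f a m H κ : ℝ))) := by
  classical
  rw [← Mo_smul, ← Mo_smul]
  refine le_trans (Mo_mono _ _ _ _ ?_) (Mo_add _ _ _ _)
  intro a ha m hm
  have h1 := sum_near f a m H κ c ε₂ (((Vz z)⁻¹) ^ k) (fun n => pr f (fun _ => ll z) a n)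
    (fun n => pr_ll_nonneg f z (by omega) a n) (fun n => pr_ll_le f z (by omega) a n) hc hc1 hε (hwt a ha m hm)
  have h2 : ∑ n ∈ Ioc m (m + H), pr f (fun _ => vv z) a n =
      ∑ n ∈ Ioc m (m + H), pr f (fun _ => ll z) a n * ∏ i, wt ((f i).eval (n : ℤ) + a i).natAbs :=
    sum_congr rfl fun n _ => pr_vv f z a n
  rw [h2]
  refine h1.trans (le_of_eq ?_)
  ring

/-- the fundamental lemma for all tuples -/
lemma w3 {k : ℕ} (f : Fin k → ℤ[X]) (hf : ∀ l, Gd (f l)) (X m₀ M H w : ℕ) (β : ℝ)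
    (hw : Run7.h109.G.p0 f + Run7.h109.G.kap f ≤ w)
    (hfl : ∀ (a : Fin k → ℤ) (m : ℕ), Adm f a →
      |∑ n ∈ Ioc m (m + H), pr f (fun _ => ll w) a n - H * SS f a w| ≤ β * SS f a w * H) :
    Mo (Bx k X) (Ioc m₀ (m₀ + M)) (fun a m => ∑ n ∈ Ioc m (m + H), pr f (fun _ => ll w) a n - H * SS f a w) ≤
      (β * H) ^ 2 * (M * ∑ a ∈ Bx k X, SS f a w ^ 2) := by
  have h1 : Mo (Bx k X) (Ioc m₀ (m₀ + M)) (fun a _ => (β * H) * SS f a w) =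
      (β * H) ^ 2 * (M * ∑ a ∈ Bx k X, SS f a w ^ 2) := by
    rw [Mo_smul, Mo_fst, Nat.card_Ioc, Nat.add_sub_cancel_left]
  rw [← h1]
  apply Mo_mono
  intro a _ m _
  by_cases hadm : Adm f a
  · refine (hfl a m hadm).trans (le_of_eq ?_)
    ring
  · obtain ⟨h2, h3⟩ := not_adm f hf a w hw hadm
    rw [h2, sum_congr rfl fun n _ => h3 n, sum_const_zero]
    simp

/-- the trivial bound for short windows -/
lemma w3' {k : ℕ} (f : Fin k → ℤ[X]) (X m₀ M H w : ℕ) (hw : 1 ≤ w) (hX : 1 ≤ X) :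
    Mo (Bx k X) (Ioc m₀ (m₀ + M)) (fun a m => ∑ n ∈ Ioc m (m + H), pr f (fun _ => ll w) a n - H * SS f a w) ≤
      2 * (H : ℝ) ^ 2 * M * ((w : ℝ) ^ (2 * k) * (3 * X) ^ k + ∑ a ∈ Bx k X, SS f a w ^ 2) := by
  have hX1 : (1 : ℝ) ≤ X := by exact_mod_cast hX
  have h1 : Mo (Bx k X) (Ioc m₀ (m₀ + M)) (fun a m => ∑ n ∈ Ioc m (m + H), pr f (fun _ => ll w) a n - H * SS f a w) ≤
      2 * Mo (Bx k X) (Ioc m₀ (m₀ + M)) (fun _ _ => (H : ℝ) * (w : ℝ) ^ k) +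
      2 * Mo (Bx k X) (Ioc m₀ (m₀ + M)) (fun a _ => (H : ℝ) * SS f a w) := by
    have h2 := Mo_add (Bx k X) (Ioc m₀ (m₀ + M)) (fun a m => ∑ n ∈ Ioc m (m + H), pr f (fun _ => ll w) a n)
      (fun a _ => -((H : ℝ) * SS f a w))
    have e1 : (fun (a : Fin k → ℤ) (m : ℕ) => ∑ n ∈ Ioc m (m + H), pr f (fun _ => ll w) a n + -((H : ℝ) * SS f a w)) =
        (fun a m => ∑ n ∈ Ioc m (m + H), pr f (fun _ => ll w) a n - H * SS f a w) := by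
      funext a m; ring
    rw [e1] at h2
    refine h2.trans ?_
    have h3 : Mo (Bx k X) (Ioc m₀ (m₀ + M)) (fun a m => ∑ n ∈ Ioc m (m + H), pr f (fun _ => ll w) a n) ≤
        Mo (Bx k X) (Ioc m₀ (m₀ + M)) (fun _ _ => (H : ℝ) * (w : ℝ) ^ k) := by
      apply Mo_mono
      intro a _ m _
      rw [abs_of_nonneg (sum_nonneg fun n _ => pr_ll_nonneg f w hw a n)]
      have h4 : ((Vz w)⁻¹) ^ k ≤ (w : ℝ) ^ k := by
        apply pow_le_pow_left₀ (inv_nonneg.2 (Pool.Agent.TH892.OW.Vz_pos w).le)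
        have h5 := Vz_ge w hw
        have hw0 : (0 : ℝ) < w := by exact_mod_cast hw
        rw [inv_le_comm₀ (Pool.Agent.TH892.OW.Vz_pos w) hw0, ← one_div]
        exact h5
      calc ∑ n ∈ Ioc m (m + H), pr f (fun _ => ll w) a n ≤ ∑ _n ∈ Ioc m (m + H), (w : ℝ) ^ k :=
            sum_le_sum fun n _ => (pr_ll_le f w hw a n).trans h4
        _ = _ := by rw [sum_const, Nat.card_Ioc, nsmul_eq_mul, Nat.add_sub_cancel_left]
    have h4 : Mo (Bx k X) (Ioc m₀ (m₀ + M)) (fun (a : Fin k → ℤ) (_ : ℕ) => -((H : ℝ) * SS f a w)) =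
        Mo (Bx k X) (Ioc m₀ (m₀ + M)) (fun a _ => (H : ℝ) * SS f a w) := by
      unfold Mo
      simp
    rw [h4]
    linarith
  refine h1.trans ?_
  have h5 : Mo (Bx k X) (Ioc m₀ (m₀ + M)) (fun _ _ => (H : ℝ) * (w : ℝ) ^ k) ≤
      (H : ℝ) ^ 2 * M * ((w : ℝ) ^ (2 * k) * (3 * X) ^ k) := by
    unfold Mo
    rw [sum_const, sum_const, Nat.card_Ioc, Nat.add_sub_cancel_left, nsmul_eq_mul, nsmul_eq_mul,
      Run7.h285.S.card_Bx]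
    have e1 : (2 * (X : ℝ) + 1) ^ k ≤ (3 * X) ^ k := pow_le_pow_left₀ (by positivity) (by linarith) _
    calc (2 * (X : ℝ) + 1) ^ k * (M * ((H : ℝ) * (w : ℝ) ^ k) ^ 2) ≤ (3 * X) ^ k * (M * ((H : ℝ) * (w : ℝ) ^ k) ^ 2) :=
          mul_le_mul_of_nonneg_right e1 (by positivity)
      _ = _ := by ring
  have h6 : Mo (Bx k X) (Ioc m₀ (m₀ + M)) (fun a _ => (H : ℝ) * SS f a w) =
      (H : ℝ) ^ 2 * M * ∑ a ∈ Bx k X, SS f a w ^ 2 := by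
    rw [Mo_smul, Mo_fst, Nat.card_Ioc, Nat.add_sub_cancel_left]
    ring
  rw [h6]
  have e2 : 2 * (H : ℝ) ^ 2 * M * ((w : ℝ) ^ (2 * k) * (3 * X) ^ k + ∑ a ∈ Bx k X, SS f a w ^ 2) =
      2 * ((H : ℝ) ^ 2 * M * ((w : ℝ) ^ (2 * k) * (3 * X) ^ k)) + 2 * ((H : ℝ) ^ 2 * M * ∑ a ∈ Bx k X, SS f a w ^ 2) := by
    ring
  rw [e2]
  linarith

/-- the sieved sum in mean square -/
lemma w0 {k : ℕ} (f : Fin k → ℤ[X]) (X m₀ M H w z : ℕ) :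
    Mo (Bx k X) (Ioc m₀ (m₀ + M)) (fun a m => ∑ n ∈ Ioc m (m + H), pr f (fun _ => ll z) a n) ≤
      2 * Mo (Bx k X) (Ioc m₀ (m₀ + M)) (fun a m => ∑ n ∈ Ioc m (m + H), (pr f (fun _ => ll z) a n - pr f (fun _ => ll w) a n)) +
      4 * Mo (Bx k X) (Ioc m₀ (m₀ + M)) (fun a m => ∑ n ∈ Ioc m (m + H), pr f (fun _ => ll w) a n - H * SS f a w) +
      4 * ((H : ℝ) ^ 2 * (M * ∑ a ∈ Bx k X, SS f a w ^ 2)) := by
  have h1 := Mo_add (Bx k X) (Ioc m₀ (m₀ + M)) (fun a m => ∑ n ∈ Ioc m (m + H), (pr f (fun _ => ll z) a n - pr f (fun _ => ll w) a n))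
    (fun a m => ∑ n ∈ Ioc m (m + H), pr f (fun _ => ll w) a n)
  have h2 := Mo_add (Bx k X) (Ioc m₀ (m₀ + M)) (fun a m => ∑ n ∈ Ioc m (m + H), pr f (fun _ => ll w) a n - H * SS f a w)
    (fun a _ => H * SS f a w)
  have e1 : (fun (a : Fin k → ℤ) (m : ℕ) => ∑ n ∈ Ioc m (m + H), (pr f (fun _ => ll z) a n - pr f (fun _ => ll w) a n) +
      ∑ n ∈ Ioc m (m + H), pr f (fun _ => ll w) a n) = fun a m => ∑ n ∈ Ioc m (m + H), pr f (fun _ => ll z) a n := by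
    funext a m
    rw [sum_sub_distrib]; ring
  have e2 : (fun (a : Fin k → ℤ) (m : ℕ) => ∑ n ∈ Ioc m (m + H), pr f (fun _ => ll w) a n - H * SS f a w + H * SS f a w) =
      fun a m => ∑ n ∈ Ioc m (m + H), pr f (fun _ => ll w) a n := by
    funext a m
    ring
  have e3 : Mo (Bx k X) (Ioc m₀ (m₀ + M)) (fun a _ => (H : ℝ) * SS f a w) =
      (H : ℝ) ^ 2 * (M * ∑ a ∈ Bx k X, SS f a w ^ 2) := by
    rw [Mo_smul, Mo_fst, Nat.card_Ioc, Nat.add_sub_cancel_left]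
  rw [e1] at h1
  rw [e2, e3] at h2
  linarith

/-- the final combination -/
lemma fin_ar (N h T ε e1 η δ MA MT MR M1 M2 M3 M4 : ℝ) (hN : 0 ≤ N) (hT : 0 ≤ T) (hh : h ≤ T)
    (hη : 0 < η) (hδ : 0 < δ) (h1 : |MA - h * N| ≤ e1 * N) (he1 : e1 ≤ 1) (he1' : e1 ≤ ε / 4)
    (hηT : η * (T + 1) ≤ ε / 4) (hδη : (1 + 1 / η) * (16 * δ) ≤ ε / 2)
    (h2 : |MT - MA| ≤ η * MA + (1 + 1 / η) * MR) (h3 : MR ≤ 4 * (M1 + M2 + M3 + M4))
    (m1 : M1 ≤ δ * N) (m2 : M2 ≤ δ * N) (m3 : M3 ≤ δ * N) (m4 : M4 ≤ δ * N) : |MT - h * N| ≤ ε * N := by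
  have a1 := abs_le.1 h1
  have a2 := abs_le.1 h2
  have a3 : MA ≤ (T + 1) * N := by
    have : h * N ≤ T * N := mul_le_mul_of_nonneg_right hh hN
    have : e1 * N ≤ 1 * N := mul_le_mul_of_nonneg_right he1 hN
    linarith
  have a4 : η * MA ≤ ε / 4 * N := by
    calc η * MA ≤ η * ((T + 1) * N) := mul_le_mul_of_nonneg_left a3 hη.le
      _ = η * (T + 1) * N := by ring
      _ ≤ _ := mul_le_mul_of_nonneg_right hηT hN
  have a5 : (1 + 1 / η) * MR ≤ ε / 2 * N := by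
    have p : 0 ≤ 1 + 1 / η := by positivity
    calc (1 + 1 / η) * MR ≤ (1 + 1 / η) * (16 * δ * N) := mul_le_mul_of_nonneg_left (by linarith) p
      _ = (1 + 1 / η) * (16 * δ) * N := by ring
      _ ≤ _ := mul_le_mul_of_nonneg_right hδη hN
  have a6 : e1 * N ≤ ε / 4 * N := mul_le_mul_of_nonneg_right he1' hN
  rw [abs_le]
  constructor <;> linarith

end Run7.h285.V
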