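import Pool.Agent.Run7.h285.V.V2

/-!
# Project VAR: the number variance (main theorem)
-/

set_option autoImplicit false

namespace Run7.h285.V

open Finset Filter Topology Polynomial
open Pool.Agent.TH892.SW (ff wt)
open Pool.Agent.H373R2.T7 (pz Vz lamz mem_pz Vz_ge)
open Pool.Agent.TH892.OW (evt_ll)
open Run7.h285.S (Bx uu vv ll gg prod_close pow_small wt_close)
open Run7.h285.G (Gd pr MM nu SS Adm P W nn P_eq val_all)
open Pool.Agent.H442R2.EHI (evt_log_pow evt_log_ge)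

lemma MM_Mo (k : ℕ) (G : (Fin k → ℤ) → ℕ → ℝ) (X m₀ M H : ℕ) :
    MM k (fun _ => 1) G X m₀ M H = Mo (Bx k X) (Ioc m₀ (m₀ + M)) (fun a m => ∑ n ∈ Ioc m (m + H), G a n) := by
  unfold MM Mo
  simp only [one_mul]

/-- the main term, arithmetic -/
lemma ar_main (k : ℕ) (X l T e1 ε' M H MA : ℝ) (hX : 1 ≤ X) (hl : 1 ≤ l) (hT : 1 ≤ T) (hM : 0 ≤ M) (hH0 : 0 ≤ H)
    (hH : H ≤ T * l ^ k) (he1 : 0 < e1) (hε' : ε' = e1 / (2 * T)) (hb : 2 * T ^ 2 / e1 ≤ l)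
    (h : |MA - (2 * X / l) ^ k * (M * H)| ≤ (2 * X) ^ k * (ε' * (M * H) / l ^ k + M * H ^ 2 / l ^ (2 * k + 1))) :
    |MA - H / l ^ k * ((2 * X) ^ k * M)| ≤ e1 * ((2 * X) ^ k * M) := by
  have hl0 : 0 < l := by linarith
  have hlk : 0 < l ^ k := by positivity
  have e : (2 * X / l) ^ k * (M * H) = H / l ^ k * ((2 * X) ^ k * M) := by
    rw [div_pow]; ring
  rw [e] at h
  refine h.trans ?_
  have hq : H / l ^ k ≤ T := by rw [div_le_iff₀ hlk]; exact hH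
  have hq0 : 0 ≤ H / l ^ k := by positivity
  have e2 : (2 * X) ^ k * (ε' * (M * H) / l ^ k + M * H ^ 2 / l ^ (2 * k + 1)) =
      (ε' * (H / l ^ k) + (H / l ^ k) ^ 2 / l) * ((2 * X) ^ k * M) := by
    have e3 : l ^ (2 * k + 1) = (l ^ k) ^ 2 * l := by ring
    rw [e3]
    field_simp
  rw [e2]
  apply mul_le_mul_of_nonneg_right _ (by positivity)
  have a1 : ε' * (H / l ^ k) ≤ e1 / 2 := by
    have hε0 : 0 ≤ ε' := by rw [hε']; positivity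
    calc ε' * (H / l ^ k) ≤ ε' * T := mul_le_mul_of_nonneg_left hq hε0
      _ = e1 / 2 := by rw [hε']; field_simp
  have a2 : (H / l ^ k) ^ 2 / l ≤ e1 / 2 := by
    rw [div_le_iff₀ hl0]
    rw [div_le_iff₀ he1] at hb
    have := pow_le_pow_left₀ hq0 hq 2
    linarith
  linarith

/-- **V2** -/
theorem v2 {k : ℕ} (f : Fin k → ℤ[X]) (hk : 1 ≤ k) (hgd : ∀ l, Gd (f l)) (h1 : S_V1 f) (h2 : Run7.h285.G.S_GSM2 f)
    (h3 : Run7.h285.G.S_GFL f) (h4 : S_VMS f) : S_V2 f := by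
  intro ε T₀ hε hT₀
  obtain ⟨T, hT⟩ : ∃ T, T = max T₀ 1 := ⟨_, rfl⟩
  have hT1 : 1 ≤ T := by rw [hT]; exact le_max_right _ _
  have hTT : T₀ ≤ T := by rw [hT]; exact le_max_left _ _
  clear hT
  have hT0 : 0 < T := by linarith
  obtain ⟨C1, yf, hC1, hyf, hfl⟩ := h3
  obtain ⟨K, Xm, hK, hvm⟩ := h4
  obtain ⟨η, hη⟩ : ∃ η, η = ε / (4 * (T + 1)) := ⟨_, rfl⟩
  have hη0 : 0 < η := by rw [hη]; positivity
  have hηT : η * (T + 1) ≤ ε / 4 := by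
    rw [hη]
    apply le_of_eq
    field_simp
  obtain ⟨δ, hδ⟩ : ∃ δ, δ = ε / (32 * (1 + 1 / η)) := ⟨_, rfl⟩
  have hδ0 : 0 < δ := by rw [hδ]; positivity
  have hδη : (1 + 1 / η) * (16 * δ) ≤ ε / 2 := by
    rw [hδ]
    have p : (0 : ℝ) < 1 + 1 / η := by positivity
    apply le_of_eq
    rw [mul_div_assoc', mul_div_assoc', div_eq_div_iff (by positivity) (by norm_num)]
    ring
  clear hη hδ
  obtain ⟨e1, he1⟩ : ∃ e1, e1 = min (ε / 4) 1 := ⟨_, rfl⟩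
  have he10 : 0 < e1 := by rw [he1]; exact lt_min (by positivity) one_pos
  have he11 : e1 ≤ 1 := by rw [he1]; exact min_le_right _ _
  have he12 : e1 ≤ ε / 4 := by rw [he1]; exact min_le_left _ _
  clear he1
  obtain ⟨ε', hε'⟩ : ∃ ε', ε' = e1 / (2 * T) := ⟨_, rfl⟩
  have hε'0 : 0 < ε' := by rw [hε']; positivity
  obtain ⟨b, hb1, hb2⟩ : ∃ b : ℕ, C1 ≤ b ∧ (2 * (1 / 2 : ℝ) ^ b) ^ 2 * (T ^ 2 * K) ≤ δ := by
    obtain ⟨n, hn⟩ := exists_pow_lt_of_lt_one (show (0 : ℝ) < δ / (4 * (T ^ 2 * K)) by positivity)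
      (show (1 / 2 : ℝ) < 1 by norm_num)
    refine ⟨C1 + n, by omega, ?_⟩
    have a1 : (1 / 2 : ℝ) ^ (C1 + n) ≤ (1 / 2 : ℝ) ^ n := pow_le_pow_of_le_one (by norm_num) (by norm_num) (by omega)
    have a2 : (1 / 2 : ℝ) ^ (C1 + n) ≤ 1 := pow_le_one₀ (by norm_num) (by norm_num)
    have a3 : 0 < (1 / 2 : ℝ) ^ (C1 + n) := by positivity
    have a4 : ((1 / 2 : ℝ) ^ (C1 + n)) ^ 2 ≤ δ / (4 * (T ^ 2 * K)) := by nlinarith
    have a5 : 0 < T ^ 2 * K := by positivity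
    calc (2 * (1 / 2 : ℝ) ^ (C1 + n)) ^ 2 * (T ^ 2 * K) = ((1 / 2 : ℝ) ^ (C1 + n)) ^ 2 * (4 * (T ^ 2 * K)) := by ring
      _ ≤ δ / (4 * (T ^ 2 * K)) * (4 * (T ^ 2 * K)) := mul_le_mul_of_nonneg_right a4 (by positivity)
      _ = δ := by field_simp
  obtain ⟨ε₂, he20, he21⟩ : ∃ ε₂ : ℝ, 0 < ε₂ ∧ ε₂ ^ 2 * (4 * (6 * δ + 4 * (T ^ 2 * K))) ≤ δ := by
    have p : 0 < 4 * (6 * δ + 4 * (T ^ 2 * K)) := by positivity
    refine ⟨√(δ / (4 * (6 * δ + 4 * (T ^ 2 * K)))), Real.sqrt_pos.2 (by positivity), ?_⟩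
    rw [Real.sq_sqrt (by positivity)]
    apply le_of_eq
    field_simp
  obtain ⟨ε₃, he30, he31⟩ := pow_small k ε₂ he20
  obtain ⟨K2, hK20, hK22, hKv⟩ := val_all f
  obtain ⟨u, hu⟩ : ∃ u, u = 2 * (C1 * b) + 8 * k + 2 := ⟨_, rfl⟩
  obtain ⟨y0, hy0⟩ : ∃ y0 : ℕ, y0 = ⌈T ^ 2 * K / δ⌉₊ + 1 := ⟨_, rfl⟩
  obtain ⟨w0', hw0'⟩ : ∃ w0' : ℕ, w0' = y0 + yf + Run7.h109.G.p0 f + Run7.h109.G.kap f + 1 := ⟨_, rfl⟩
  have hy01 : T ^ 2 * K / δ ≤ (y0 : ℝ) := by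
    rw [hy0]
    push_cast
    have := Nat.le_ceil (T ^ 2 * K / δ)
    linarith
  refine ⟨y0, fun C => ?_⟩
  obtain ⟨E1, h1⟩ := h1 ε' (2 * k + 1) C (k + 1) hε'0
  obtain ⟨E, hE⟩ : ∃ E, E = E1 + 1 := ⟨_, rfl⟩
  obtain ⟨B, Xa, h1⟩ := h1 E (by omega)
  obtain ⟨Xb, h2⟩ := h2 C (k + 1) E u 1 (by omega) (by omega)
  obtain ⟨Xc, hVz⟩ := Run7.h285.E2.Vz_sqrt E (by omega)
  obtain ⟨Xd, hwc⟩ := wt_close (3 * k + 1) (C + 2) ε₃ he30
  have hev : ∀ᶠ X : ℕ in atTop, (10000 + T + 2 * T ^ 2 / e1 + 4 * 4 ^ (k + 1) * T ^ 2 * k * 3 ^ k / δ + K2 +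
        (2 * (3 ^ k + K) / δ) ^ 2 + (2 * T / δ) ^ 2 : ℝ) ≤ Real.log X ∧
      ((w0' : ℝ) + 1) * Real.log (Real.log X) ^ 0 ≤ Real.log X ^ (1 / (u : ℝ)) ∧
      Real.log X ^ (3 * k + 1) ≤ (X : ℝ) ^ (1 : ℝ) ∧
      Real.log X ^ ((k + 1) * ∑ i, (f i).natDegree) ≤ (X : ℝ) ^ (1 : ℝ) ∧
      Real.exp (2 * T ^ 2 / δ + 1) ≤ Real.log X := by
    filter_upwards [evt_log_ge _, evt_ll 0 (1 / (u : ℝ)) (w0' + 1) (by rw [hu]; positivity),
      evt_log_pow (3 * k + 1) 1 (by norm_num), evt_log_pow ((k + 1) * ∑ i, (f i).natDegree) 1 (by norm_num),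
      evt_log_ge _] with X a1 a2 a3 a4 a5
    exact ⟨a1, a2, a3, a4, a5⟩
  obtain ⟨Xe, hXe⟩ := eventually_atTop.1 hev
  refine ⟨B, Xa + Xb + Xc + Xd + Xe + Xm, fun X hX m₀ M hM hW y hy hyl H hH1 hHT => ?_⟩
  have h1 := h1 X (by omega) m₀ M H hH1
  have h2 := h2 X (by omega) m₀ M H hH1
  have hVz := hVz X (by omega)
  have hwc := hwc X (by omega)
  have hvm := hvm X (by omega)
  obtain ⟨hl, hlu, hlX, hlX2, hle⟩ := hXe X (by omega)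
  have p1 : 0 < 2 * T ^ 2 / e1 := by positivity
  have p2 : 0 ≤ 4 * 4 ^ (k + 1) * T ^ 2 * k * 3 ^ k / δ := by positivity
  have p3 : 0 ≤ (2 * (3 ^ k + K) / δ) ^ 2 := by positivity
  have p4 : 0 ≤ (2 * T / δ) ^ 2 := by positivity
  have g0 : 10000 ≤ Real.log X := by linarith
  have g1 : T ≤ Real.log X := by linarith
  have g2 : 2 * T ^ 2 / e1 ≤ Real.log X := by linarith
  have g3 : 4 * 4 ^ (k + 1) * T ^ 2 * k * 3 ^ k / δ ≤ Real.log X := by linarith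
  have g4 : K2 ≤ Real.log X := by linarith
  have g5 : (2 * (3 ^ k + K) / δ) ^ 2 ≤ Real.log X := by linarith
  have g6 : (2 * T / δ) ^ 2 ≤ Real.log X := by linarith
  clear hl p1 p2 p3 p4 hXe hev
  have hl1' : 1 ≤ Real.log X := by linarith
  have hXp : 1 ≤ X := by
    rcases Nat.eq_zero_or_pos X with h | h
    · rw [h] at hl1'; norm_num at hl1'
    · exact h
  have hX1 : (1 : ℝ) ≤ X := by exact_mod_cast hXp
  have hX0 : (0 : ℝ) < X := by linarith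
  rw [pow_zero, mul_one] at hlu
  rw [Real.rpow_one] at hlX hlX2
  have hM3 : ∀ i, (X : ℝ) ^ (1 / 3 : ℝ) ≤ (M : ℝ) ^ ((f i).natDegree - 1) := by
    intro i
    refine le_trans ?_ (hM i)
    exact le_mul_of_one_le_right (by positivity) (one_le_pow₀ hl1')
  generalize hll : Real.log (X : ℝ) = l at *
  have hl0 : 0 < l := by linarith
  have hlk : 0 < l ^ k := by positivity
  have hM0 : (0 : ℝ) ≤ M := Nat.cast_nonneg _
  have hH0 : (0 : ℝ) ≤ H := Nat.cast_nonneg _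
  have hHT' : (H : ℝ) ≤ T * l ^ k := hHT.trans (mul_le_mul_of_nonneg_right hTT hlk.le)
  have hHD : (H : ℝ) ≤ l ^ (k + 1) := by
    refine hHT'.trans ?_
    rw [pow_succ']
    exact mul_le_mul_of_nonneg_right g1 hlk.le
  have h1 := h1 hHD hM hW (fun _ => 1) (fun _ => by norm_num)
  have h2 := h2 hHD hM3 hW
  rw [MM_Mo] at h1 h2
  obtain ⟨q1, q2, q3, q4⟩ := cut_w l u (C1 * b) k w0' g0 (by omega) (by omega) (by omega) hlu
  obtain ⟨w, hw⟩ : ∃ w, w = ⌊l ^ (1 / (u : ℝ))⌋₊ := ⟨_, rfl⟩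
  obtain ⟨z, hz⟩ : ∃ z, z = ⌊l ^ E⌋₊ := ⟨_, rfl⟩
  have hz2 : 2 ≤ z := by
    rw [hz]
    apply Nat.le_floor
    have : l ≤ l ^ E := le_self_pow₀ hl1' (by omega)
    push_cast
    linarith
  rw [← hz] at h1 h2 hVz
  rw [← hw] at h2 q1 q2 q3 q4
  clear hw hz hlu
  have hVp := Pool.Agent.TH892.OW.Vz_pos z
  have hV0 : 0 ≤ (Vz z)⁻¹ := inv_nonneg.2 hVp.le
  have hV2 : (Vz z)⁻¹ ^ 2 ≤ l := by
    have a1 : (Vz z)⁻¹ ≤ √l := by linarith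
    have a2 := pow_le_pow_left₀ hV0 a1 2
    rwa [Real.sq_sqrt hl0.le] at a2
  have hw1 : 1 ≤ w := by omega
  have hy1 : 1 ≤ y := by omega
  obtain ⟨hSw, -⟩ := hvm w w hw1 le_rfl q2
  obtain ⟨c, hc⟩ : ∃ c, c = 1 / l ^ k := ⟨_, rfl⟩
  have hc0 : 0 < c := by rw [hc]; positivity
  have hc1 : c ≤ 1 := by
    rw [hc, div_le_one hlk]
    exact one_le_pow₀ hl1'
  have hcH : c * H ≤ T := by
    rw [hc, div_mul_eq_mul_div, one_mul, div_le_iff₀ hlk]; exact hHT'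
  have hcH0 : 0 ≤ c * H := by positivity
  obtain ⟨N, hN⟩ : ∃ N, N = (2 * (X : ℝ)) ^ k * M := ⟨_, rfl⟩
  have hN0 : 0 ≤ N := by rw [hN]; positivity
  have hXN : (X : ℝ) ^ k * M ≤ N := by
    rw [hN]
    exact mul_le_mul_of_nonneg_right (pow_le_pow_left₀ hX0.le (by linarith) _) hM0
  obtain ⟨q, hq⟩ : ∃ q, q = Mo (Bx k X) (Ioc m₀ (m₀ + M)) (fun a m => ∑ n ∈ Ioc m (m + H), pr f (fun _ => ll z) a n) :=
    ⟨_, rfl⟩
  obtain ⟨Q2, hQ2⟩ : ∃ Q2, Q2 = Mo (Bx k X) (Ioc m₀ (m₀ + M))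
    (fun a m => ∑ n ∈ Ioc m (m + H), (pr f (fun _ => ll z) a n - pr f (fun _ => ll w) a n)) := ⟨_, rfl⟩
  obtain ⟨Q3, hQ3⟩ : ∃ Q3, Q3 = Mo (Bx k X) (Ioc m₀ (m₀ + M))
    (fun a m => ∑ n ∈ Ioc m (m + H), pr f (fun _ => ll w) a n - H * SS f a w) := ⟨_, rfl⟩
  have hQ0 : 0 ≤ Q3 := by rw [hQ3]; exact Mo_nonneg _ _ _
  have m2 : c ^ 2 * Q2 ≤ δ * N := by
    rw [hN]
    refine ar_mod X l (Real.log l) T M H δ c Q2 k hk hX1 hl1' hc hM0 hδ0 hT1 hH0 hHT' ?_ ?_ ?_ ?_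
    · exact Real.le_sqrt_of_sq_le g6
    · have : 0 < 2 * T ^ 2 / δ := by positivity
      have h5 := (Real.le_log_iff_exp_le hl0).2 hle
      linarith
    · have h5 := (Real.le_log_iff_exp_le hl0).2 hle
      linarith
    · rw [hQ2]; exact h2
  have m3 : c ^ 2 * Q3 ≤ δ * N := by
    rcases le_or_gt (w ^ (C1 * b)) H with h5 | h5
    · have h6 := w3 f hgd X m₀ M H w (2 * (1 / 2 : ℝ) ^ b) (by omega)
        (fun a m hadm => hfl b hb1 w (by omega) H h5 a m hadm)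
      rw [← hQ3] at h6
      have h7 : c ^ 2 * Q3 ≤ c ^ 2 * ((2 * (1 / 2 : ℝ) ^ b * H) ^ 2 * (M * (K * (X : ℝ) ^ k))) := by
        apply mul_le_mul_of_nonneg_left _ (sq_nonneg _)
        refine h6.trans ?_
        gcongr
      have e : c ^ 2 * ((2 * (1 / 2 : ℝ) ^ b * H) ^ 2 * (M * (K * (X : ℝ) ^ k))) =
          (2 * (1 / 2 : ℝ) ^ b) ^ 2 * ((c * H) ^ 2 * K) * ((X : ℝ) ^ k * M) := by ring
      rw [e] at h7
      have h8 : (2 * (1 / 2 : ℝ) ^ b) ^ 2 * ((c * H) ^ 2 * K) ≤ δ := by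
        refine le_trans ?_ hb2
        gcongr
      calc c ^ 2 * Q3 ≤ _ := h7
        _ ≤ δ * ((X : ℝ) ^ k * M) := mul_le_mul_of_nonneg_right h8 (by positivity)
        _ ≤ δ * N := mul_le_mul_of_nonneg_left hXN hδ0.le
    · have h6 := w3' f X m₀ M H w hw1 hXp
      rw [← hQ3] at h6
      have h7 : (H : ℝ) ≤ √l := by
        have : (H : ℝ) ≤ ((w ^ (C1 * b) : ℕ) : ℝ) := by exact_mod_cast h5.le
        rw [Nat.cast_pow] at this
        linarith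
      have h8 : (H : ℝ) ^ 2 ≤ l := by
        have := pow_le_pow_left₀ hH0 h7 2
        rwa [Real.sq_sqrt hl0.le] at this
      have h9 := ar_short k hk X l H M ((w : ℝ) ^ (2 * k)) (∑ a ∈ Bx k X, SS f a w ^ 2) K δ c hX1 hl1' hc hH0 h8 q4 hSw
        hK.le hM0 hδ0 (Real.le_sqrt_of_sq_le g5)
      rw [← hN] at h9
      exact (mul_le_mul_of_nonneg_left h6 (sq_nonneg _)).trans h9
  have mq : c ^ 2 * q ≤ (6 * δ + 4 * (T ^ 2 * K)) * N := by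
    have h5 := w0 f X m₀ M H w z
    rw [← hq, ← hQ2, ← hQ3] at h5
    have h6 : c ^ 2 * ((H : ℝ) ^ 2 * (M * ∑ a ∈ Bx k X, SS f a w ^ 2)) ≤ T ^ 2 * K * N := by
      have e : c ^ 2 * ((H : ℝ) ^ 2 * (M * ∑ a ∈ Bx k X, SS f a w ^ 2)) =
        (c * H) ^ 2 * (M * ∑ a ∈ Bx k X, SS f a w ^ 2) := by ring
      rw [e]
      calc (c * H) ^ 2 * (M * ∑ a ∈ Bx k X, SS f a w ^ 2) ≤ T ^ 2 * (M * (K * (X : ℝ) ^ k)) := by
            gcongr
        _ = T ^ 2 * K * ((X : ℝ) ^ k * M) := by ring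
        _ ≤ _ := mul_le_mul_of_nonneg_left hXN (by positivity)
    have h7 : c ^ 2 * q ≤ 2 * (c ^ 2 * Q2) + 4 * (c ^ 2 * Q3) + 4 * (c ^ 2 * ((H : ℝ) ^ 2 * (M * ∑ a ∈ Bx k X, SS f a w ^ 2))) := by
      have := mul_le_mul_of_nonneg_left h5 (sq_nonneg c)
      linarith
    have e : (6 * δ + 4 * (T ^ 2 * K)) * N = 2 * (δ * N) + 4 * (δ * N) + 4 * (T ^ 2 * K * N) := by ring
    rw [e]
    linarith
  have mn : 2 * ((2 ^ (k + 1) * ((Vz z)⁻¹) ^ k) ^ 2 *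
      Mo (Bx k X) (Ioc m₀ (m₀ + M)) (fun a m => (nn f a m H (X / l ^ (3 * k + 1)) : ℝ))) ≤ δ / 2 * N := by
    have hκ : 0 ≤ (X : ℝ) / l ^ (3 * k + 1) := by positivity
    have h5 := nn_sq f X m₀ M H (X / l ^ (3 * k + 1)) hκ
    have h6 := ar_nn k hk X l T H M ((Vz z)⁻¹) δ (X / l ^ (3 * k + 1)) hX1 hl1' rfl hlX hV0 hV2 hH0 hHT' hM0 hδ0 g3
    rw [← hN] at h6
    refine le_trans ?_ h6
    gcongr
  have m1 : Mo (Bx k X) (Ioc m₀ (m₀ + M)) (fun a m => ∑ n ∈ Ioc m (m + H), pr f (fun _ => vv z) a n -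
        c * ∑ n ∈ Ioc m (m + H), pr f (fun _ => ll z) a n) ≤ δ * N := by
    have h5 := w1 f X m₀ M H z (X / l ^ (3 * k + 1)) c ε₂ hz2 hc0 hc1 he20.le (by
      intro a ha m hm n hn hκ
      have hG : ∀ i, (H : ℝ) ^ (f i).natDegree ≤ X * l ^ (C + 1) := by
        intro i
        calc (H : ℝ) ^ (f i).natDegree ≤ (l ^ (k + 1)) ^ (f i).natDegree := pow_le_pow_left₀ hH0 hHD _
          _ = l ^ ((k + 1) * (f i).natDegree) := by rw [← pow_mul]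
          _ ≤ l ^ ((k + 1) * ∑ i, (f i).natDegree) := by
              apply pow_le_pow_right₀ hl1'
              apply Nat.mul_le_mul_left
              exact single_le_sum (f := fun j => (f j).natDegree) (fun j _ => Nat.zero_le _) (mem_univ i)
          _ ≤ X := hlX2
          _ ≤ X * l ^ (C + 1) := le_mul_of_one_le_right hX0.le (one_le_pow₀ hl1')
      have hv := hKv X m₀ M C m H n l a g4 hl1' hX1 ha hm hW hG hn
      have h4 := prod_close (univ : Finset (Fin k)) (fun i => wt ((f i).eval (n : ℤ) + a i).natAbs) (1 / l) ε₃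
        (by positivity) he30.le (fun i _ => hwc _ (hκ i) (hv i))
      rw [card_univ, Fintype.card_fin, one_div, inv_pow, ← one_div, ← hc] at h4
      exact h4.trans (mul_le_mul_of_nonneg_right he31 hc0.le))
    rw [← hq] at h5
    exact ar_wt N δ T K ε₂ c _ q _ hN0 hδ0 hK he21 mq mn h5
  have m4 : Mo (Bx k X) (Ioc m₀ (m₀ + M)) (fun a _ => (c * H) * (SS f a w - SS f a y)) ≤ δ * N := by
    rw [Mo_smul (Bx k X) (Ioc m₀ (m₀ + M)) (fun a _ => SS f a w - SS f a y), Mo_fst, Nat.card_Ioc,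
      Nat.add_sub_cancel_left, hN]
    have hy0' : (y0 : ℝ) ≤ y := by exact_mod_cast hy
    have hw0'' : (y0 : ℝ) ≤ w := by
      have : y0 ≤ w := by omega
      exact_mod_cast this
    rcases le_total w y with h5 | h5
    · obtain ⟨-, h6⟩ := hvm y w hw1 h5 hyl
      have e : ∑ a ∈ Bx k X, (SS f a w - SS f a y) ^ 2 = ∑ a ∈ Bx k X, (SS f a y - SS f a w) ^ 2 :=
        sum_congr rfl fun a _ => by ring
      rw [e]
      exact ar_cut X T K M _ c H w δ y0 k hX1 hK hM0 hδ0 h6 hcH0 hcH hy01 hw0'' (by exact_mod_cast hw1)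
    · obtain ⟨-, h6⟩ := hvm w y hy1 h5 q2
      exact ar_cut X T K M _ c H y δ y0 k hX1 hK hM0 hδ0 h6 hcH0 hcH hy01 hy0' (by exact_mod_cast hy1)
  have hA : |Mo (Bx k X) (Ioc m₀ (m₀ + M)) (fun a m => ∑ n ∈ Ioc m (m + H), (pr f (fun _ => uu) a n - pr f (fun _ => vv z) a n)) -
      H / l ^ k * N| ≤ e1 * N := by
    rw [hN]
    refine ar_main k X l T e1 ε' M H _ hX1 hl1' hT1 hM0 hH0 hHT' he10 hε' g2 ?_
    have e : ∑ m ∈ Ioc m₀ (m₀ + M), ∑ n ∈ Ioc m (m + H), (1 : ℝ) ^ 2 = M * H := by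
      simp [Nat.card_Ioc]
    rw [e] at h1
    exact h1
  have hP := Mo_pert (Bx k X) (Ioc m₀ (m₀ + M)) (fun a m => (P f a m H : ℝ) - SS f a y * (H / l ^ k))
    (fun a m => ∑ n ∈ Ioc m (m + H), (pr f (fun _ => uu) a n - pr f (fun _ => vv z) a n))
    (fun a m => (∑ n ∈ Ioc m (m + H), pr f (fun _ => vv z) a n - c * ∑ n ∈ Ioc m (m + H), pr f (fun _ => ll z) a n) +
      c * ∑ n ∈ Ioc m (m + H), (pr f (fun _ => ll z) a n - pr f (fun _ => ll w) a n) +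
      c * (∑ n ∈ Ioc m (m + H), pr f (fun _ => ll w) a n - H * SS f a w) +
      (c * H) * (SS f a w - SS f a y)) η hη0 (by
      intro a _ m _
      show (P f a m H : ℝ) - SS f a y * (H / l ^ k) = _
      rw [P_eq, sum_sub_distrib, sum_sub_distrib, hc]
      ring)
  have hR := Mo_add4 (Bx k X) (Ioc m₀ (m₀ + M))
    (fun a m => ∑ n ∈ Ioc m (m + H), pr f (fun _ => vv z) a n - c * ∑ n ∈ Ioc m (m + H), pr f (fun _ => ll z) a n)
    (fun a m => c * ∑ n ∈ Ioc m (m + H), (pr f (fun _ => ll z) a n - pr f (fun _ => ll w) a n))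
    (fun a m => c * (∑ n ∈ Ioc m (m + H), pr f (fun _ => ll w) a n - H * SS f a w))
    (fun a _ => (c * H) * (SS f a w - SS f a y))
  rw [Mo_smul (Bx k X) (Ioc m₀ (m₀ + M)) (fun a m => ∑ n ∈ Ioc m (m + H), (pr f (fun _ => ll z) a n - pr f (fun _ => ll w) a n)) c,
    Mo_smul (Bx k X) (Ioc m₀ (m₀ + M)) (fun a m => ∑ n ∈ Ioc m (m + H), pr f (fun _ => ll w) a n - H * SS f a w) c,
    ← hQ2, ← hQ3] at hR
  have hfin := fin_ar N (H / l ^ k) T ε e1 η δ _ _ _ _ _ _ _ hN0 hT0.le (by rw [div_le_iff₀ hlk]; exact hHT') hη0 hδ0 hA he11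
    he12 hηT hδη hP hR m1 m2 m3 m4
  have e : (2 * (X : ℝ)) ^ k * M * (H / l ^ k) = H / l ^ k * N := by rw [hN]; ring
  rw [e, ← hN]
  exact hfin

end Run7.h285.V
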